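import Pool.Agent.LE.StmtsM
import Pool.Agent.Helper42_LE.Msd
import Pool.Agent.Helper54_LE.LYA
import Pool.Agent.Helper93_LEW.CRT

/-!
# Squad lym, rows MSJ and LYR
-/

set_option autoImplicit false
set_option linter.unusedSectionVars false

open MeasureTheory ProbabilityTheory Function Filter

open scoped ENNReal BigOperators Topology NNReal

noncomputable section

namespace Pool.Agent.LE.MN.H32

open Pool.Agent.Anderson hiding box mem_box card_box
open Pool.Agent.Loc Pool.Agent.Mob Pool.Agent.Helper54.Bal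
  Pool.Agent.Helper96.EXP Pool.Agent.BED
open Pool.Agent.LE

variable {d : ℕ}

theorem continuous_RM2 (Λ : Finset (Site d)) :
    Continuous fun p : (Site d → ℝ) × ℝ => RM p.1 Λ p.2 := by
  apply continuous_matrix
  intro x y
  simp only [RM, HM, Matrix.sub_apply, Matrix.smul_apply, Matrix.of_apply, smul_eq_mul]
  by_cases h : x = y
  · simp only [h, if_true]
    fun_prop
  · simp only [h, if_false]
    fun_prop

theorem measurable_gr2 (Λ : Finset (Site d)) (x y : Site d) :
    Measurable fun p : (Site d → ℝ) × ℝ => gr p.1 Λ p.2 x y := by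
  by_cases h : x ∈ Λ ∧ y ∈ Λ
  · simp_rw [gr_eq_adj h.1 h.2]
    apply Measurable.mul
    · exact ((continuous_RM2 Λ).matrix_det).measurable.inv
    · have h1 : Continuous fun p : (Site d → ℝ) × ℝ => (RM p.1 Λ p.2).adjugate :=
        (continuous_RM2 Λ).matrix_adjugate
      exact (h1.matrix_elem _ _).measurable
  · have : (fun p : (Site d → ℝ) × ℝ => gr p.1 Λ p.2 x y) = fun _ => 0 := by
      funext p
      unfold gr
      rw [dif_neg h]
    rw [this]
    exact measurable_const

theorem msj : MsjStmt := by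
  classical
  intro d Λ S y
  have hg : Measurable fun p : (Site d → ℝ) × ℝ => gmax p.1 Λ p.2 S y := by
    unfold gmax
    refine Measurable.coe_nnreal_real ?_
    induction S using Finset.induction_on with
    | empty => simp
    | insert z S hz ih =>
      simp only [Finset.sup_insert]
      exact (measurable_gr2 Λ z y).nnnorm.sup ih
  unfold FD
  exact (Real.measurable_log.comp hg).neg

theorem lyr (ufm : UfmStmt) : LyrStmt := by
  classical
  intro d s₀ σ E g ε hd hσ hL hε
  by_cases hge : g ≤ ε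
  · refine ⟨0, fun M N S _ _ _ _ _ _ => ?_⟩
    have h1 : (g - ε) * (M : ℝ) ≤ 0 :=
      mul_nonpos_of_nonpos_of_nonneg (by linarith) (Nat.cast_nonneg M)
    rw [ENNReal.ofReal_of_nonpos h1]
    exact zero_le
  have hg : ε < g := not_le.1 hge
  have hg0 : 0 < g := hε.trans hg
  obtain ⟨e, he⟩ : ∃ e : ℝ, e = ε / 4 := ⟨_, rfl⟩
  have he0 : 0 < e := by rw [he]; linarith
  obtain ⟨δ, hδ⟩ : ∃ δ : ℝ, δ = e / g := ⟨_, rfl⟩
  have hδ0 : 0 < δ := by rw [hδ]; exact div_pos he0 hg0
  have hδg : δ * g = e := by rw [hδ]; exact div_mul_cancel₀ _ hg0.ne'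
  have hν := bddDens_gl hσ
  have hρ : 0 < 1 / |σ| := hν.1
  -- almost surely no zeros
  have hB : Par (|E| + |σ| + 1 / |σ|) σ E := by
    have h1 := abs_nonneg E
    have h2 : 0 < |σ| := abs_pos.2 hσ
    refine ⟨by linarith, by linarith, ?_⟩
    have h3 : 1 / |σ| * |σ| = 1 := by field_simp
    have h4 : 0 ≤ (|E| + |σ|) * |σ| := by positivity
    nlinarith
  have hB0 : 0 < |E| + |σ| + 1 / |σ| := by
    have h1 := abs_nonneg E
    have h2 : 0 < |σ| := abs_pos.2 hσ
    linarith
  obtain ⟨C, -, hC⟩ := ufm d _ hd hB0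
  have hz := fun N => (hC σ E hB N).2
  -- three eventual statements
  have ev1 : ∀ᶠ M : ℕ in atTop, PP d (gl σ) {V | ¬ SG V M (g - e) E 0} ≤
      ENNReal.ofReal (δ / 2) :=
    ((hL.2 e he0).2).eventually_le_const (ENNReal.ofReal_pos.2 (by linarith))
  have ev2 : ∀ᶠ M : ℕ in atTop, (2 * (M : ℝ) + 1) ^ d *
      ((3 ^ d * s₀ * (6 * (1 / |σ|))) * Real.exp (-e * M)) ≤ δ / 2 :=
    (H54.tendsto_pow_exp d (by linarith : -e < 0) _).eventually_le_const (by linarith)
  have ev3 : ∀ᶠ M : ℕ in atTop, (2 * (M : ℝ) + 1) ^ d * ((2 * d) * Real.exp (-e * M)) ≤ 1 :=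
    (H54.tendsto_pow_exp d (by linarith : -e < 0) _).eventually_le_const one_pos
  obtain ⟨M₀, hM₀⟩ := (ev1.and (ev2.and ev3)).exists_forall_of_atTop
  refine ⟨M₀, fun M N S hM hMN hS hSne hcard hSd => ?_⟩
  obtain ⟨h1, h2, h3⟩ := hM₀ M hM
  have hM0 : (0 : ℝ) ≤ M := Nat.cast_nonneg M
  obtain ⟨w, hw⟩ := hSne
  have hexp : Real.exp (-e * M) * Real.exp (e * M) = 1 := by
    rw [← Real.exp_add]
    have : -e * M + e * M = 0 := by ring
    rw [this, Real.exp_zero]
  have h3' : 2 * d * (2 * (M : ℝ) + 1) ^ d ≤ Real.exp (e * M) := by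
    have h4 := mul_le_mul_of_nonneg_right h3 (Real.exp_pos (e * M)).le
    have h5 : (2 * (M : ℝ) + 1) ^ d * ((2 * d) * Real.exp (-e * M)) * Real.exp (e * M) =
        2 * d * (2 * (M : ℝ) + 1) ^ d * (Real.exp (-e * M) * Real.exp (e * M)) := by ring
    rw [h5, hexp, mul_one, one_mul] at h4
    exact h4
  -- the bad event
  obtain ⟨c, hc⟩ : ∃ c : ℝ, c = (g - 3 * e) * M := ⟨_, rfl⟩
  have hge3 : 0 ≤ g - 3 * e := by rw [he]; linarith
  have hc0 : 0 ≤ c := by rw [hc]; exact mul_nonneg hge3 hM0
  have hsub : (Set.univ : Set (Site d → ℝ)) ⊆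
      {V | ENNReal.ofReal c ≤ ENNReal.ofReal (FD V (box 0 N) E S 0)} ∪
        ({V | ¬ SG V M (g - e) E 0} ∪ ({V | (RM V (box (0 : Site d) N) E).det = 0} ∪
          ({V | gr V (box (0 : Site d) N) E w 0 = 0} ∪
            ⋃ b ∈ box (0 : Site d) (M + 1), ⋃ u ∈ S,
              {V | Real.exp (e * M) < |gr V (box (0 : Site d) N) E b u|}))) := by
    intro V _
    by_contra hcon
    simp only [Set.mem_union, Set.mem_iUnion, not_or, not_exists, Set.mem_ofPred_eq,
      not_not] at hcon
    obtain ⟨k0, k1, k2, k3, k4⟩ := hcon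
    apply k0
    apply ENNReal.ofReal_le_ofReal
    have hA : box (0 : Site d) M ⊆ box 0 N := box_mono 0 (by omega)
    have hbound : ∀ u ∈ S, |gr V (box (0 : Site d) N) E u 0| ≤ Real.exp (-c) := by
      intro u hu
      have hux : u ∈ box (0 : Site d) N \ box 0 M := by
        rw [Finset.mem_sdiff]
        refine ⟨hS hu, ?_⟩
        rw [mem_box]
        have := hSd u hu
        omega
      have key := H42.geo_bound (V := V) (E := E) (α := Real.exp (-(g - e) * M))
        (β := Real.exp (e * M)) hA k2 k1.1 (x := (0 : Site d)) (y := u)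
        (by rw [mem_box, sd_self]; exact Nat.zero_le _) hux
        (Real.exp_pos _).le (Real.exp_pos _).le (by
          intro b hb b' hb' hne
          have h5 := sd_of_hop hne
          rw [mem_box] at hb
          rw [Finset.mem_sdiff, mem_box, mem_box] at hb'
          have h6 := sd_triangle 0 b b'
          refine ⟨k1.2 b (by omega), not_lt.1 (k4 b' ?_ u hu)⟩
          rw [mem_box]
          omega)
      rw [gr_symm]
      refine key.trans ?_
      rw [card_box]
      push_cast
      calc Real.exp (-(g - e) * M) * (2 * d * (2 * (M : ℝ) + 1) ^ d) * Real.exp (e * M)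
          ≤ Real.exp (-(g - e) * M) * Real.exp (e * M) * Real.exp (e * M) := by gcongr
        _ = Real.exp (-c) := by
          rw [← Real.exp_add, ← Real.exp_add, hc]
          congr 1
          ring
    have hpos : 0 < gmax V (box (0 : Site d) N) E S 0 :=
      (abs_pos.2 k3).trans_le (H54W.le_gmax V _ E hw 0)
    obtain ⟨z, hz1, hz2⟩ := H54W.exists_gmax V (box (0 : Site d) N) E hpos
    unfold FD
    have h7 : gmax V (box (0 : Site d) N) E S 0 ≤ Real.exp (-c) := by
      rw [hz2]
      exact hbound z hz1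
    have h8 := Real.log_le_log hpos h7
    rw [Real.log_exp] at h8
    linarith
  have hbad : PP d (gl σ) ({V | ¬ SG V M (g - e) E 0} ∪
      ({V | (RM V (box (0 : Site d) N) E).det = 0} ∪
          ({V | gr V (box (0 : Site d) N) E w 0 = 0} ∪
            ⋃ b ∈ box (0 : Site d) (M + 1), ⋃ u ∈ S,
              {V | Real.exp (e * M) < |gr V (box (0 : Site d) N) E b u|}))) ≤
      ENNReal.ofReal δ := by
    have hsum : PP d (gl σ) (⋃ b ∈ box (0 : Site d) (M + 1), ⋃ u ∈ S,
        {V | Real.exp (e * M) < |gr V (box (0 : Site d) N) E b u|}) ≤ ENNReal.ofReal (δ / 2) := by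
      calc PP d (gl σ) (⋃ b ∈ box (0 : Site d) (M + 1), ⋃ u ∈ S,
          {V | Real.exp (e * M) < |gr V (box (0 : Site d) N) E b u|})
          ≤ ∑ b ∈ box (0 : Site d) (M + 1), ∑ u ∈ S,
              ENNReal.ofReal (6 * (1 / |σ|) / Real.exp (e * M)) := by
            refine (measure_biUnion_finset_le _ _).trans (Finset.sum_le_sum fun b _ => ?_)
            refine (measure_biUnion_finset_le _ _).trans (Finset.sum_le_sum fun u _ => ?_)
            exact H54.PP_weak hν _ E b u (Real.exp_pos _)
        _ = ENNReal.ofReal ((2 * ((M + 1 : ℕ) : ℝ) + 1) ^ d * (S.card *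
              (6 * (1 / |σ|) / Real.exp (e * M)))) := by
            rw [Finset.sum_const, Finset.sum_const, card_box, nsmul_eq_mul, nsmul_eq_mul,
              ENNReal.ofReal_mul (p := (2 * ((M + 1 : ℕ) : ℝ) + 1) ^ d) (by positivity),
              ENNReal.ofReal_mul (p := (S.card : ℝ)) (Nat.cast_nonneg _), ENNReal.ofReal_natCast,
              ← ENNReal.ofReal_natCast ((2 * (M + 1) + 1) ^ d)]
            push_cast
            rfl
        _ ≤ ENNReal.ofReal (δ / 2) := by
            apply ENNReal.ofReal_le_ofReal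
            refine le_trans ?_ h2
            have h5 : (2 * ((M + 1 : ℕ) : ℝ) + 1) ^ d ≤ (3 * (2 * (M : ℝ) + 1)) ^ d := by
              apply pow_le_pow_left₀ (by positivity)
              push_cast
              linarith
            have h6 : (S.card : ℝ) ≤ s₀ := by exact_mod_cast hcard
            have h7 : 6 * (1 / |σ|) / Real.exp (e * M) = 6 * (1 / |σ|) * Real.exp (-e * M) := by
              rw [div_eq_iff (Real.exp_pos _).ne', mul_assoc, hexp, mul_one]
            rw [h7]
            calc (2 * ((M + 1 : ℕ) : ℝ) + 1) ^ d * (S.card * (6 * (1 / |σ|) * Real.exp (-e * M)))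
                ≤ (3 * (2 * (M : ℝ) + 1)) ^ d * (s₀ * (6 * (1 / |σ|) * Real.exp (-e * M))) := by
                  gcongr
              _ = _ := by rw [mul_pow]; ring
    have hw0 : PP d (gl σ) {V | gr V (box (0 : Site d) N) E w 0 = 0} = 0 :=
      hz N w (hS hw) 0 (by rw [mem_box, sd_self]; exact Nat.zero_le _)
    calc _ ≤ PP d (gl σ) {V | ¬ SG V M (g - e) E 0} +
        (PP d (gl σ) {V | (RM V (box (0 : Site d) N) E).det = 0} +
          (PP d (gl σ) {V | gr V (box (0 : Site d) N) E w 0 = 0} +
            PP d (gl σ) (⋃ b ∈ box (0 : Site d) (M + 1), ⋃ u ∈ S,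
              {V | Real.exp (e * M) < |gr V (box (0 : Site d) N) E b u|}))) := by
          refine (measure_union_le _ _).trans (add_le_add le_rfl ?_)
          refine (measure_union_le _ _).trans (add_le_add le_rfl ?_)
          exact measure_union_le _ _
      _ ≤ ENNReal.ofReal (δ / 2) + (0 + (0 + ENNReal.ofReal (δ / 2))) := by
          refine add_le_add h1 (add_le_add (H54.PP_det hν _ E).le (add_le_add hw0.le hsum))
      _ = ENNReal.ofReal δ := by
          rw [zero_add, zero_add, ← ENNReal.ofReal_add (by linarith) (by linarith)]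
          congr 1
          ring
  have hmeas : Measurable fun V : Site d → ℝ => ENNReal.ofReal (FD V (box 0 N) E S 0) :=
    (H93W.measurable_FD (box 0 N) E S 0).ennreal_ofReal
  have hmk := mul_meas_ge_le_lintegral (μ := PP d (gl σ)) hmeas (ENNReal.ofReal c)
  have hone : (1 : ℝ≥0∞) ≤ PP d (gl σ) {V | ENNReal.ofReal c ≤
      ENNReal.ofReal (FD V (box 0 N) E S 0)} + ENNReal.ofReal δ := by
    calc (1 : ℝ≥0∞) = PP d (gl σ) Set.univ := (measure_univ).symm
      _ ≤ _ := measure_mono hsub
      _ ≤ _ := (measure_union_le _ _).trans (add_le_add le_rfl hbad)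
  have hfin : ENNReal.ofReal c ≤ (∫⁻ V, ENNReal.ofReal (FD V (box 0 N) E S 0) ∂(PP d (gl σ))) +
      ENNReal.ofReal (e * M) := by
    calc ENNReal.ofReal c = ENNReal.ofReal c * 1 := (mul_one _).symm
      _ ≤ ENNReal.ofReal c * (PP d (gl σ) {V | ENNReal.ofReal c ≤
          ENNReal.ofReal (FD V (box 0 N) E S 0)} + ENNReal.ofReal δ) := by gcongr
      _ = ENNReal.ofReal c * PP d (gl σ) {V | ENNReal.ofReal c ≤
          ENNReal.ofReal (FD V (box 0 N) E S 0)} + ENNReal.ofReal c * ENNReal.ofReal δ :=
          mul_add _ _ _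
      _ ≤ _ := by
          refine add_le_add hmk ?_
          rw [← ENNReal.ofReal_mul hc0]
          apply ENNReal.ofReal_le_ofReal
          have h5 : c * δ ≤ g * M * δ := by
            apply mul_le_mul_of_nonneg_right _ hδ0.le
            rw [hc]
            apply mul_le_mul_of_nonneg_right _ hM0
            linarith
          calc c * δ ≤ g * M * δ := h5
            _ = δ * g * M := by ring
            _ = e * M := by rw [hδg]
  have hsplit : ENNReal.ofReal c = ENNReal.ofReal ((g - ε) * M) + ENNReal.ofReal (e * M) := by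
    rw [← ENNReal.ofReal_add (mul_nonneg (by linarith) hM0) (mul_nonneg he0.le hM0), hc, he]
    congr 1
    ring
  rw [hsplit] at hfin
  exact (ENNReal.add_le_add_iff_right ENNReal.ofReal_ne_top).1 hfin

end Pool.Agent.LE.MN.H32
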